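import Pool.Agent.Q57.GE.Free

/-!
Points of a finite set which minimize linear functions, and the dual lattice.
-/

set_option autoImplicit false
set_option linter.overlappingInstances false
set_option linter.unusedSectionVars false

open Pool.Agent.Y169.CH Pool.Agent.Q57.GE

namespace Pool.Agent.Q57.CF

/-- a large multiple of `f` decides -/
theorem gap {B : Type} [Finite B] (f g : B → ℚ) : ∃ n0 : ℕ, ∀ n : ℕ, n0 ≤ n → ∀ b,
    (∀ b', n * f b + g b ≤ n * f b' + g b') → ∀ b', f b ≤ f b' := by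
  have h1 : ∀ᶠ n : ℕ in Filter.atTop, ∀ b b', f b' < f b → g b' - g b < n * (f b - f b') := by
    rw [Filter.eventually_all]
    intro b
    rw [Filter.eventually_all]
    intro b'
    by_cases h : f b' < f b
    · obtain ⟨n0, hn0⟩ := exists_nat_gt ((g b' - g b) / (f b - f b'))
      rw [Filter.eventually_atTop]
      refine ⟨n0, fun n hn _ => ?_⟩
      have h2 : 0 < f b - f b' := sub_pos.2 h
      rw [div_lt_iff₀ h2] at hn0
      have h3 : (n0 : ℚ) ≤ n := by exact_mod_cast hn
      exact hn0.trans_le (mul_le_mul_of_nonneg_right h3 h2.le)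
    · exact Filter.Eventually.of_forall fun n h' => absurd h' h
  rw [Filter.eventually_atTop] at h1
  obtain ⟨n0, hn0⟩ := h1
  refine ⟨n0, fun n hn b hb b' => ?_⟩
  by_contra hcon
  push Not at hcon
  have h2 := hn0 n hn b b' hcon
  have h3 := hb b'
  linarith

variable {r R : ℕ} {B : Type}

/-- the value of a vector at a point -/
def pr (Q : B → Fin r → ℚ) (w : Fin r → ℕ) (b : B) : ℚ := ∑ i, (w i : ℚ) * Q b i

/-- the point minimizes the vector -/
def IsMin (Q : B → Fin r → ℚ) (w : Fin r → ℕ) (b : B) : Prop := ∀ b', pr Q w b ≤ pr Q w b'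

theorem pr_comb (Q : B → Fin r → ℚ) (n : ℕ) (w e : Fin r → ℕ) (b : B) :
    pr Q (n • w + e) b = n * pr Q w b + pr Q e b := by
  unfold pr
  rw [Finset.mul_sum, ← Finset.sum_add_distrib]
  refine Finset.sum_congr rfl fun i _ => ?_
  simp only [Pi.add_apply, Pi.smul_apply, smul_eq_mul]
  push_cast
  ring

theorem pr_smul (Q : B → Fin r → ℚ) (n : ℕ) (w : Fin r → ℕ) (b : B) :
    pr Q (n • w) b = n * pr Q w b := by
  have h1 := pr_comb Q n w 0 b
  rw [add_zero] at h1
  rw [h1]
  unfold pr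
  simp

theorem exists_min [Finite B] [Nonempty B] (Q : B → Fin r → ℚ) (w : Fin r → ℕ) :
    ∃ b, IsMin Q w b := Finite.exists_min (pr Q w)

/-- **The vertices**: if the minima of the admissible vectors are integral, then for every vector the
minimum is attained at a point of the dual lattice. -/
theorem vertex [Finite B] [Nonempty B] {M : Fin R → ℕ} (hM : ∀ j, 0 < M j)
    (a : Fin R → Fin r → ℕ) (hr : 1 ≤ r) (Q : B → Fin r → ℚ) {ρ : ℕ}
    (hρ : ∀ w, Adm M a w → ∀ b, IsMin Q w b → ∃ z : ℤ, (ρ : ℚ) * pr Q w b = z)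
    {v : Fin r → ℕ} (hv : v = 0 ∨ Adm M a v) :
    ∃ b, IsMin Q v b ∧ ∀ u : Fin r → ℤ, (∀ j, (M j : ℤ) ∣ ∑ i, (a j i : ℤ) * u i) →
      ∃ z : ℤ, ∑ i, (ρ * Q b i) * u i = z := by
  classical
  obtain ⟨π, hπ⟩ : ∃ π, π = ∏ j, M j := ⟨_, rfl⟩
  have hπ0 : 0 < π := by
    rw [hπ]
    exact Finset.prod_pos fun j _ => hM j
  have hE : ∀ i, Adm M a (Pi.single i π) := fun i => by
    rw [hπ]
    exact adm_single hM a i
  have hprE : ∀ i b, pr Q (Pi.single i π) b = π * Q b i := by
    intro i b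
    unfold pr
    rw [Finset.sum_eq_single i]
    · rw [Pi.single_eq_same]
    · intro j _ hj
      rw [Pi.single_eq_of_ne hj, Nat.cast_zero, zero_mul]
    · intro h
      exact absurd (Finset.mem_univ _) h
  have key : ∀ J : Finset (Fin r), ∃ W, Adm M a W ∧ (∀ i ∈ J, 1 ≤ W i) ∧
      (∀ b, IsMin Q W b → IsMin Q v b) ∧
      ∀ b b', IsMin Q W b → IsMin Q W b' → ∀ i ∈ J, Q b i = Q b' i := by
    intro J
    induction J using Finset.induction_on with
    | empty =>
      rcases hv with h0 | hv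
      · refine ⟨_, hE ⟨0, hr⟩, by simp, fun b _ b' => ?_, by simp⟩
        rw [h0]
        unfold pr
        simp
      · exact ⟨v, hv, by simp, fun b h => h, by simp⟩
    | insert i J _ ih =>
      obtain ⟨W, hW, hW1, hW2, hW3⟩ := ih
      obtain ⟨n0, hn0⟩ := gap (pr Q W) (pr Q (Pi.single i π))
      obtain ⟨W', hW'⟩ : ∃ W', W' = (n0 + 1) • W + Pi.single i π := ⟨_, rfl⟩
      have h1 : ∀ b, pr Q W' b = ((n0 + 1 : ℕ) : ℚ) * pr Q W b + pr Q (Pi.single i π) b := by
        intro b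
        rw [hW', pr_comb]
      have h2 : ∀ b, IsMin Q W' b → IsMin Q W b := by
        intro b hb
        refine hn0 (n0 + 1) (by omega) b fun b' => ?_
        rw [← h1, ← h1]
        exact hb b'
      refine ⟨W', ?_, fun j hj => ?_, fun b hb => hW2 b (h2 b hb), fun b b' hb hb' j hj => ?_⟩
      · rw [hW']
        exact adm_add (adm_smul hW (by omega)) (hE i)
      · rw [hW', Pi.add_apply]
        rcases Finset.mem_insert.1 hj with h | h
        · rw [h, Pi.single_eq_same]
          omega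
        · rw [Pi.smul_apply, smul_eq_mul]
          have h3 := hW1 j h
          have h4 : 1 ≤ (n0 + 1) * W j := Nat.mul_pos (by omega) h3
          omega
      · rcases Finset.mem_insert.1 hj with h | h
        · rw [h]
          have h3 := le_antisymm (hb b') (hb' b)
          have h4 := le_antisymm (h2 b hb b') (h2 b' hb' b)
          rw [h1, h1, h4, hprE, hprE] at h3
          have h5 := add_left_cancel h3
          have h6 : (π : ℚ) ≠ 0 := by exact_mod_cast hπ0.ne'
          exact mul_left_cancel₀ h6 h5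
        · exact hW3 b b' (h2 b hb) (h2 b' hb') j h
  obtain ⟨W, hW, hW1, hW2, hW3⟩ := key Finset.univ
  obtain ⟨b, hb⟩ := exists_min Q W
  refine ⟨b, hW2 b hb, fun u hu => ?_⟩
  obtain ⟨n0, hn0⟩ := gap (pr Q W) fun b => ∑ i, (u i : ℚ) * Q b i
  obtain ⟨n, hn⟩ : ∃ n : ℕ, n = n0 + 1 + ∑ i, (u i).natAbs := ⟨_, rfl⟩
  have hpos : ∀ i, 1 ≤ (n : ℤ) * W i + u i := by
    intro i
    have h1 : (u i).natAbs ≤ ∑ i, (u i).natAbs :=
      Finset.single_le_sum (f := fun i => (u i).natAbs) (fun _ _ => Nat.zero_le _)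
        (Finset.mem_univ i)
    have h2 : (1 : ℤ) ≤ W i := by exact_mod_cast hW1 i (Finset.mem_univ i)
    have h3 : (n : ℤ) ≤ n * W i := le_mul_of_one_le_right (by positivity) h2
    have h4 : (1 : ℤ) + (u i).natAbs ≤ n := by
      rw [hn]
      exact_mod_cast (by omega : 1 + (u i).natAbs ≤ n0 + 1 + ∑ i, (u i).natAbs)
    have h5 : -((u i).natAbs : ℤ) ≤ u i := by omega
    linarith
  obtain ⟨w, hw⟩ : ∃ w : Fin r → ℕ, ∀ i, (w i : ℤ) = n * W i + u i :=
    ⟨fun i => (n * W i + u i : ℤ).toNat, fun i => Int.toNat_of_nonneg (by linarith [hpos i])⟩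
  have hwq : ∀ i, (w i : ℚ) = n * W i + u i := fun i => by exact_mod_cast hw i
  have hwA : Adm M a w := by
    refine ⟨?_, fun j => ?_⟩
    · intro h0
      have h1 := hw ⟨0, hr⟩
      have h2 := hpos ⟨0, hr⟩
      rw [h0] at h1
      simp only [Pi.zero_apply, Nat.cast_zero] at h1
      linarith
    · have h1 : ((∑ i, a j i * w i : ℕ) : ℤ) = n * ((∑ i, a j i * W i : ℕ) : ℤ) +
          ∑ i, (a j i : ℤ) * u i := by
        push_cast
        rw [Finset.mul_sum, ← Finset.sum_add_distrib]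
        refine Finset.sum_congr rfl fun i _ => ?_
        rw [hw]
        ring
      have h2 : (M j : ℤ) ∣ ((∑ i, a j i * w i : ℕ) : ℤ) := by
        rw [h1]
        refine dvd_add (Dvd.dvd.mul_left ?_ _) (hu j)
        exact_mod_cast hW.2 j
      exact_mod_cast h2
  have hprw : ∀ b, pr Q w b = n * pr Q W b + ∑ i, (u i : ℚ) * Q b i := by
    intro b
    unfold pr
    rw [Finset.mul_sum, ← Finset.sum_add_distrib]
    refine Finset.sum_congr rfl fun i _ => ?_
    rw [hwq]
    ring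
  obtain ⟨b', hb'⟩ := exists_min Q w
  have h1 : IsMin Q W b' := by
    refine hn0 n (by omega) b' fun b'' => ?_
    have h2 := hb' b''
    rw [hprw, hprw] at h2
    exact h2
  have h2 : Q b' = Q b := funext fun i => hW3 b' b h1 hb i (Finset.mem_univ i)
  obtain ⟨z1, hz1⟩ := hρ w hwA b' hb'
  obtain ⟨z2, hz2⟩ := hρ W hW b hb
  refine ⟨z1 - n * z2, ?_⟩
  rw [hprw] at hz1
  have h3 : pr Q W b' = pr Q W b := by
    unfold pr
    rw [h2]
  rw [h3, h2] at hz1
  push_cast
  rw [← hz1, ← hz2]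
  have h4 : ∑ i, (ρ * Q b i) * (u i : ℚ) = ρ * ∑ i, (u i : ℚ) * Q b i := by
    rw [Finset.mul_sum]
    exact Finset.sum_congr rfl fun i _ => by ring
  rw [h4]
  ring

/-- finitely many admissible vectors -/
theorem exists_T (M : Fin R → ℕ) (a : Fin R → Fin r → ℕ) :
    ∃ T : Finset (Fin r → ℕ), (∀ s ∈ T, Adm M a s) ∧ ∀ v, Adm M a v → ∃ s ∈ T, ∀ k, s k ≤ v k := by
  classical
  have h1 : {v | Adm M a v}.IsPWO := Set.isPWO_of_wellQuasiOrderedLE _
  have h2 : {v | Minimal (· ∈ {v | Adm M a v}) v}.Finite := by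
    have h3 : IsAntichain (· ≤ ·) {v | Minimal (· ∈ {v | Adm M a v}) v} :=
      setOfPred_minimal_antichain _
    exact h3.finite_of_partiallyWellOrderedOn (Set.isPWO_of_wellQuasiOrderedLE _)
  refine ⟨h2.toFinset, fun s hs => (h2.mem_toFinset.1 hs).1, fun v hv => ?_⟩
  obtain ⟨s, hs, hm⟩ := h1.exists_le_minimal hv
  exact ⟨s, h2.mem_toFinset.2 hm, hs⟩

end Pool.Agent.Q57.CF
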