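import Pool.Agent.Q57.CF.Core
import Pool.Agent.Q57.TC.SetB

/-!
Base point freeness of nef canonical divisors, for all canonical models of covers of products of
projective spaces.
-/

set_option autoImplicit false
set_option linter.overlappingInstances false
set_option linter.unusedSectionVars false
set_option maxHeartbeats 1000000

open FF MvPolynomial Pool.Agent.W603.LV Pool.Agent.W602.GT Pool.Agent.W602.Cov
open Pool.Agent.TH756.PR Pool.Agent.TH122.AB Pool.Agent.TH756.PN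
open Pool.Agent.Y169.CH Pool.Agent.Y169.CH.Cvr Pool.Agent.Q57.TP Pool.Agent.Q57.TQ
open Pool.Agent.Q57.GM Pool.Agent.Q57.GH Pool.Agent.Q57.FG Pool.Agent.Q57.FH Pool.Agent.Q57.GG
open Pool.Agent.Q57.GE Pool.Agent.Q57.TC

namespace Pool.Agent.Q57.CF

variable {r R N' : ℕ} {n : Fin r → ℕ} {K : Type} [Field K] [Algebra ℂ K]
  {e : ((i : Fin r) × Fin (n i)) ≃ Fin (N' + 1)} {Φ : Blk ℂ (N' + 1) r} {C : Cvr Φ K R}
  {dF : Fin r → ℕ} {x : ∀ i, Fin (n i + 1) → K} {F : ∀ i, MvPolynomial (Fin (n i + 1)) ℂ}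

/-- the order of a section of a lattice point, with the minimal coordinates -/
theorem sH_eq (H : Mon e C dF x F) {P : Place ℂ K} {α : Fin r → ℤ} {l : ∀ i, Fin (n i + 1)}
    {v : Fin r → ℕ} (h : DatH P dF x F α l v) {m : ℕ} (y : Fin r → ℤ)
    {D : Fin (N' + 1) → Derivation ℂ K K} (hD : om e D x ≠ 0) :
    P.ord (sH e dF x F m y l D) = m * P.ord (om e D x) - m * ∑ i, ((n i : ℤ) + 1) * α i +
      ∑ k, (v k : ℤ) * y k - m * ∑ i, (v i : ℤ) := by
  unfold sH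
  rw [P.ord_mul (pow_ne_zero _ hD) (fH_ne H _ _ _), P.ord_pow, ord_fH H h]
  have h3 : ∑ i, ((y i - m) * (dF i * α i + v i) +
      (((dF i : ℤ) - n i - 1) * m - dF i * y i) * P.ord (x i (l i))) =
      ∑ i, (-(((n i : ℤ) + 1) * α i * m) + (y i - m) * v i) := by
    refine Finset.sum_congr rfl fun i _ => ?_
    rw [h.h2]
    ring
  rw [h3, Finset.sum_add_distrib]
  have h5 : ∑ i, -(((n i : ℤ) + 1) * α i * m) = -(m * ∑ i, ((n i : ℤ) + 1) * α i) := by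
    rw [Finset.sum_neg_distrib, Finset.mul_sum]
    congr 1
    exact Finset.sum_congr rfl fun i _ => by ring
  have h6 : ∑ i, (y i - m) * (v i : ℤ) = ∑ i, (v i : ℤ) * y i - m * ∑ i, (v i : ℤ) := by
    rw [Finset.mul_sum, ← Finset.sum_sub_distrib]
    exact Finset.sum_congr rfl fun i _ => by ring
  rw [h5, h6]
  ring

/-- the log discrepancy minus one -/
noncomputable def AA (e : ((i : Fin r) × Fin (n i)) ≃ Fin (N' + 1)) (x : ∀ i, Fin (n i + 1) → K)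
    (P : Place ℂ K) (α : Fin r → ℤ) (v : Fin r → ℕ) : ℤ :=
  mo e x P - ∑ i, (v i : ℤ) - ∑ i, ((n i : ℤ) + 1) * α i

/-- **Base point freeness.** -/
theorem free_g (H : Mon e C dF x F) (hr : 1 ≤ r) (hdF : ∀ i, 1 ≤ dF i) (hΦ : Smo Φ)
    {μ' : Place ℂ K → Fin r → ℕ} (hvv : ∀ P v, MultH C P v → v = μ' P)
    {c : (Fin r → ℕ) → ℚ} {δ0 δ : Place ℂ K → ℚ} (hcf : CoefH C c δ0)
    (hmul : ∀ v (k : ℕ), 1 ≤ k → Adm C.M C.a v → 1 - c (k • v) ≤ k * (1 - c v))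
    {T : Finset (Fin r → ℕ)} (hT1 : ∀ s ∈ T, Adm C.M C.a s)
    (hT2 : ∀ v, Adm C.M C.a v → ∃ w : (Fin r → ℕ) → ℚ, (∀ s, 0 ≤ w s) ∧
      (∀ k, ∑ s ∈ T, w s * s k ≤ v k) ∧ 1 - c v ≤ ∑ s ∈ T, w s * (1 - c s))
    (hle : ∀ P, Divisorial (N' + 1) P → δ P ≤ δ0 P)
    (hext : ∀ (m : ℕ) (y : Fin r → ℤ) (l : ∀ i, Fin (n i + 1)), 1 ≤ m →
      (∀ t, (dF t : ℤ) * y t ≤ ((dF t : ℤ) - n t - 1) * m) →
      (∀ v, Adm C.M C.a v → (m : ℚ) * (1 - c v) ≤ ((∑ k, (v k : ℤ) * y k : ℤ) : ℚ)) →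
      ∀ P : Place ℂ K, Divisorial (N' + 1) P → ∀ D : Fin (N' + 1) → Derivation ℂ K K,
        (∀ c, DerReg P (D c)) → sH e dF x F m y l D = 0 ∨
          - (m * δ P) ≤ P.ord (sH e dF x F m y l D)) {ρ : ℕ} (hρ1 : 1 ≤ ρ)
    (hρ : ∀ P, Divisorial (N' + 1) P → ∃ z : ℤ, (ρ : ℚ) * δ P = z)
    (hn : BNef (N' + 1) δ) :
    ∀ P : Place ℂ K, Divisorial (N' + 1) P →
      ∃ ω, BSec (N' + 1) δ {1} ρ 0 ω ∧
        ∃ D, (∀ c, DerReg P (D c)) ∧ ω D ≠ 0 ∧ (P.ord (ω D) : ℚ) ≤ - (ρ * δ P) := by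
  classical
  obtain ⟨N0, g, ω, hg, hex, hord, D0, hD0, hpl⟩ := geoBx (p := 1)
    (c := fun (_ : Fin 1) => c) (δ := fun _ => δ0) H hdF hΦ
    (fun _ => hcf) (fun _ v q hq hv => hmul v q hq hv) hT1 (fun v hv => by
      obtain ⟨w, h1, h2, h3⟩ := hT2 v hv
      exact ⟨w, h1, h2, fun _ => h3⟩)
  choose y l hωb hdeg hadm using hex
  obtain ⟨m, hm⟩ : ∃ m : Fin N0 → ℕ, m = fun b => ∑ i, g b i := ⟨_, rfl⟩
  have hmb : ∀ b, ∑ i, g b i = m b := fun b => by rw [hm]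
  have hg0 : ∀ b, g b 0 = m b := fun b => by rw [← hmb, Fin.sum_univ_one]
  simp only [hmb] at hωb hdeg
  have hm1 : ∀ b, 1 ≤ m b := by
    intro b
    rw [← hg0]
    refine Nat.one_le_iff_ne_zero.2 fun h0 => (hg b).1 (Finsupp.ext fun i => ?_)
    rw [Subsingleton.elim i 0, h0]
    rfl
  have hmq : ∀ b, (0 : ℚ) < m b := fun b => by exact_mod_cast hm1 b
  have hadm' : ∀ b v, Adm C.M C.a v → (m b : ℚ) * (1 - c v) ≤
      ((∑ k, (v k : ℤ) * y b k : ℤ) : ℚ) := by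
    intro b v hv
    have h1 := hadm b v hv
    rw [Fin.sum_univ_one, hg0] at h1
    exact h1
  obtain ⟨Q, hQ⟩ : ∃ Q : Fin N0 → Fin r → ℚ, Q = fun b i => (y b i : ℚ) / m b := ⟨_, rfl⟩
  have hmQ : ∀ b i, (m b : ℚ) * Q b i = y b i := by
    intro b i
    rw [hQ]
    dsimp only
    rw [mul_div_cancel₀ _ (hmq b).ne']
  have hmpr : ∀ b v, (m b : ℚ) * pr Q v b = ((∑ k, (v k : ℤ) * y b k : ℤ) : ℚ) := by
    intro b v
    unfold pr
    push_cast
    rw [Finset.mul_sum]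
    refine Finset.sum_congr rfl fun i _ => ?_
    rw [← hmQ]
    ring
  have hx0 : ∏ i, x i 0 ^ (n i + 1) ≠ 0 :=
    Finset.prod_ne_zero_iff.2 fun i _ => pow_ne_zero _ (H.hx i 0)
  have hzero : ∀ {m : ℕ} {η : (Fin (N' + 1) → Derivation ℂ K K) → K}, IsPluri m η → 1 ≤ m →
      ∀ D, η D ≠ 0 → om e D x ≠ 0 ∧ η D0 ≠ 0 := by
    intro m η hη hm D hD
    have h1 := hpl m η hη D
    have h2 : η D * (∏ i, x i 0 ^ (n i + 1)) ^ m ≠ 0 := mul_ne_zero hD (pow_ne_zero _ hx0)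
    rw [h1] at h2
    refine ⟨fun h0 => ?_, right_ne_zero_of_mul h2⟩
    rw [h0, zero_pow (by omega), zero_mul] at h2
    exact h2 rfl
  obtain ⟨SS, ⟨s0, hs0, hs00⟩, hnf⟩ := hn
  -- the vector fields at a place
  have hframe : ∀ P : Place ℂ K, Divisorial (N' + 1) P →
      ∃ D : Fin (N' + 1) → Derivation ℂ K K, (∀ c, DerReg P (D c)) ∧ om e D x ≠ 0 ∧
        P.ord (om e D x) = mo e x P := by
    intro P hP
    obtain ⟨j, hj, hjP⟩ := hnf 1 le_rfl
    obtain ⟨η, hη, D, hD, hηD, -⟩ := hjP P hP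
    exact exists_mo H hD (hzero hη.1 (by omega) D hηD).1
  -- the first inequality
  have step1 : ∀ P : Place ℂ K, Divisorial (N' + 1) P → ∀ α l' v, DatH P dF x F α l' v →
      ∃ b, (AA e x P α v : ℚ) + pr Q v b ≤ - δ P := by
    intro P hP α l' v hdat
    by_contra hcon
    push Not at hcon
    obtain ⟨ε, hε0, hε⟩ : ∃ ε : ℚ, 0 < ε ∧ ∀ b, - δ P + ε ≤ AA e x P α v + pr Q v b := by
      rcases isEmpty_or_nonempty (Fin N0) with hN | hN
      · exact ⟨1, one_pos, fun b => isEmptyElim b⟩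
      · obtain ⟨b0, hb0⟩ := exists_min Q v
        exact ⟨AA e x P α v + pr Q v b0 - (- δ P), by linarith [hcon b0],
          fun b => by linarith [hb0 b]⟩
    obtain ⟨Ds, hDs, hDs0, hDso⟩ := hframe P hP
    obtain ⟨C1, hC1⟩ := hord P SS Ds
    obtain ⟨κ, hκ⟩ : ∃ κ, κ = - δ P + ε := ⟨_, rfl⟩
    rw [← hκ] at hε
    obtain ⟨M, hM⟩ := exists_nat_gt ((2 * C1 * (|κ| + 1) + |(P.ord s0 : ℚ)|) / ε)
    rw [div_lt_iff₀ hε0] at hM
    obtain ⟨j, hj, hjP⟩ := hnf (M + 1) (by omega)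
    obtain ⟨η, hη, D, hD, hηD, hleη⟩ := hjP P hP
    have hjM : 1 ≤ j * (M + 1) := Nat.mul_pos hj (by omega)
    obtain ⟨hDom, hη0⟩ := hzero hη.1 hjM D hηD
    have hηDs : η Ds ≠ 0 := by
      have h1 := hpl _ η hη.1 Ds
      have h2 : om e Ds x ^ (j * (M + 1)) * η D0 ≠ 0 := mul_ne_zero (pow_ne_zero _ hDs0) hη0
      rw [← h1] at h2
      exact left_ne_zero_of_mul h2
    have hle2 : P.ord (η Ds) ≤ P.ord (η D) := by
      have h1 := congrArg P.ord (hpl _ η hη.1 Ds)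
      have h2 := congrArg P.ord (hpl _ η hη.1 D)
      rw [P.ord_mul hηDs (pow_ne_zero _ hx0),
        P.ord_mul (pow_ne_zero _ hDs0) hη0, P.ord_pow (om e Ds x)] at h1
      rw [P.ord_mul hηD (pow_ne_zero _ hx0), P.ord_mul (pow_ne_zero _ hDom) hη0,
        P.ord_pow (om e D x)] at h2
      have h3 := mul_le_mul_of_nonneg_left (mo_le H hD hDom)
        (show (0 : ℤ) ≤ ((j * (M + 1) : ℕ) : ℤ) by positivity)
      rw [hDso] at h1
      linarith
    have hμ0 : (Finsupp.single (0 : Fin 1) (j * (M + 1))) ≠ 0 := by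
      rw [Ne, Finsupp.single_eq_zero]
      omega
    have hsec : ASec (N' + 1) (fun _ => δ0) SS (Finsupp.single (0 : Fin 1) (j * (M + 1))) j
        η := by
      refine ⟨?_, fun P' hP' D' hD' => ?_⟩
      · rw [Fin.sum_univ_one, Finsupp.single_eq_same]
        exact hη.1
      · refine (hη.2 P' hP' D' hD').imp id ?_
        rintro ⟨s, hs, hs0, hle'⟩
        refine ⟨s, hs, hs0, ?_⟩
        rw [Fin.sum_univ_one, Finsupp.single_eq_same]
        have h1 := mul_le_mul_of_nonneg_left (hle P' hP')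
          (show (0 : ℚ) ≤ ((j * (M + 1) : ℕ) : ℚ) by positivity)
        linarith
    obtain ⟨-, e', he1, he2⟩ := (hC1 _ j η hμ0 (asec_iff.1 hsec)).resolve_left hηDs
    have h1 := he1 0
    rw [Finsupp.single_eq_same] at h1
    simp only [hg0] at h1
    have h2 : ∀ b, (e' b : ℚ) * (m b * κ) ≤ e' b * (P.ord (ω b Ds) : ℚ) := by
      intro b
      refine mul_le_mul_of_nonneg_left ?_ (by positivity)
      refine (mul_le_mul_of_nonneg_left (hε b) (hmq b).le).trans ?_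
      have h3 := sH_low H hdat (hdeg b) (l b) hDs0
      rw [← hωb b, hDso] at h3
      have h4 : (((m b : ℤ) * mo e x P - m b * ∑ i, ((n i : ℤ) + 1) * α i +
          ∑ k, (v k : ℤ) * y b k - m b * ∑ i, (v i : ℤ) : ℤ) : ℚ) ≤ (P.ord (ω b Ds) : ℚ) := by
        exact_mod_cast h3
      refine le_trans (le_of_eq ?_) h4
      rw [mul_add, hmpr]
      unfold AA
      push_cast
      ring
    have h3 := Finset.sum_le_sum fun b (_ : b ∈ Finset.univ) => h2 b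
    have h4 : ∑ b, (e' b : ℚ) * (m b * κ) =
        ((∑ b, (e' b : ℤ) * m b : ℤ) : ℚ) * κ := by
      push_cast
      rw [Finset.sum_mul]
      exact Finset.sum_congr rfl fun b _ => by ring
    have h5 : ((∑ b, (e' b : ℤ) * P.ord (ω b Ds) : ℤ) : ℚ) ≤
        ((P.ord (η Ds) + C1 * (j + 1) : ℤ) : ℚ) := by exact_mod_cast he2
    have h6 := hleη s0 hs0 hs00
    have h7 : (P.ord (η Ds) : ℚ) ≤ P.ord (η D) := by exact_mod_cast hle2
    have h8 : |((∑ b, (e' b : ℤ) * m b : ℤ) : ℚ) - (((j * (M + 1) : ℕ) : ℤ) : ℚ)| ≤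
        C1 * (j + 1) := by exact_mod_cast h1
    have h11 : - (C1 * (j + 1) * |κ|) ≤ (((∑ b, (e' b : ℤ) * m b : ℤ) : ℚ) -
        (((j * (M + 1) : ℕ) : ℤ) : ℚ)) * κ := by
      have h9 := neg_abs_le ((((∑ b, (e' b : ℤ) * m b : ℤ) : ℚ) -
        (((j * (M + 1) : ℕ) : ℤ) : ℚ)) * κ)
      rw [abs_mul] at h9
      have h10 := mul_le_mul_of_nonneg_right h8 (abs_nonneg κ)
      linarith
    rw [h4] at h3
    obtain ⟨sm, hsm⟩ : ∃ sm, sm = ((∑ b, (e' b : ℤ) * m b : ℤ) : ℚ) := ⟨_, rfl⟩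
    rw [← hsm] at h3 h11
    push_cast at h3 h5 h6 h11
    have hjq : (1 : ℚ) ≤ j := by exact_mod_cast hj
    have h12 := mul_le_mul_of_nonneg_left (le_abs_self (P.ord s0 : ℚ)) (by linarith : (0 : ℚ) ≤ j)
    have h13 : (C1 : ℚ) * (j + 1) * (|κ| + 1) ≤ j * (2 * C1 * (|κ| + 1)) := by
      have h14 : (0 : ℚ) ≤ C1 * (|κ| + 1) := by positivity
      have h15 : (C1 : ℚ) * (j + 1) * (|κ| + 1) = C1 * (|κ| + 1) * (j + 1) := by ring
      have h16 : (j : ℚ) * (2 * C1 * (|κ| + 1)) = C1 * (|κ| + 1) * (2 * j) := by ring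
      rw [h15, h16]
      exact mul_le_mul_of_nonneg_left (by linarith) h14
    have h17 : (j : ℚ) * (M * ε) ≤ j * (2 * C1 * (|κ| + 1) + |(P.ord s0 : ℚ)|) := by
      have h18 : (0 : ℚ) ≤ j * ε := mul_nonneg (by linarith) hε0.le
      have h20 : (j : ℚ) * (M + 1) * κ = - (j * (M + 1) * δ P) + j * (M + 1) * ε := by
        rw [hκ]
        ring
      linarith
    have h19 := le_of_mul_le_mul_left h17 (by linarith : (0 : ℚ) < j)
    linarith
  -- the second inequality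
  have step2 : ∀ P : Place ℂ K, Divisorial (N' + 1) P → ∀ α l' v, DatH P dF x F α l' v →
      ∀ b, - δ P ≤ (AA e x P α v : ℚ) + pr Q v b := by
    intro P hP α l' v hdat b
    obtain ⟨Ds, hDs, hDs0, hDso⟩ := hframe P hP
    have h2 := hext (m b) (y b) l' (hm1 b) (hdeg b) (hadm' b) P hP Ds hDs
    have h3 : sH e dF x F (m b) (y b) l' Ds ≠ 0 :=
      mul_ne_zero (pow_ne_zero _ hDs0) (fH_ne H _ _ _)
    have h4 := h2.resolve_left h3
    rw [sH_eq H hdat (y b) hDs0, hDso] at h4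
    have h5 : (m b : ℚ) * (- δ P) ≤ m b * ((AA e x P α v : ℚ) + pr Q v b) := by
      rw [mul_neg]
      refine h4.trans (le_of_eq ?_)
      rw [mul_add, hmpr]
      unfold AA
      push_cast
      ring
    exact le_of_mul_le_mul_left h5 (hmq b)
  -- the sections exist
  have hne : ∀ P : Place ℂ K, Divisorial (N' + 1) P → Nonempty (Fin N0) := by
    intro P hP
    obtain ⟨α, l', v, hdat⟩ := H.exists_dat P
    obtain ⟨b, -⟩ := step1 P hP α l' v hdat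
    exact ⟨b⟩
  -- integrality
  have step3 : ∀ w, Adm C.M C.a w → ∀ b, IsMin Q w b → ∃ z : ℤ, (ρ : ℚ) * pr Q w b = z := by
    intro w hw b hb
    obtain ⟨X, hX⟩ := C.exists_dir hw.1 hw.2
    obtain ⟨P, v', r', hP, hPv, hadmv, hr', hXr⟩ := exists_place C hΦ X
    rw [hX] at hXr
    obtain ⟨α, l', v, hdat⟩ := H.exists_dat P
    have hv : v = v' := (hvv P v (hdat.multH H)).trans (hvv P v' hPv).symm
    obtain ⟨b1, hb1⟩ := step1 P hP α l' v hdat
    have h1 := step2 P hP α l' v hdat b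
    have hrq : (0 : ℚ) < r' := by exact_mod_cast hr'
    have h2 : pr Q v b ≤ pr Q v b1 := by
      have h3 := hb b1
      rw [hXr, pr_smul, pr_smul, ← hv] at h3
      exact le_of_mul_le_mul_left h3 hrq
    have h3 : pr Q v b = - δ P - AA e x P α v := by linarith
    obtain ⟨z, hz⟩ := hρ P hP
    refine ⟨r' * (- z - ρ * AA e x P α v), ?_⟩
    rw [hXr, pr_smul, ← hv, h3]
    push_cast
    rw [← hz]
    ring
  -- the section
  intro P hP
  have := hne P hP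
  obtain ⟨α, l', v, hdat⟩ := H.exists_dat P
  have hv : v = 0 ∨ Adm C.M C.a v := by
    by_cases h0 : v = 0
    · exact Or.inl h0
    · exact Or.inr (hdat.adm H h0)
  obtain ⟨b, hb, hlat⟩ := vertex C.hM C.a hr Q step3 hv
  obtain ⟨y', k', hyk⟩ := dual_lattice C.hM C.a (fun i => ρ * Q b i) hlat
  have huL : ∀ i, uL C y' k' i = ρ * Q b i := fun i => (hyk i).symm
  have hsumL : ∀ v : Fin r → ℕ, ∑ i, (v i : ℚ) * uL C y' k' i = ρ * pr Q v b := by
    intro v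
    unfold pr
    rw [Finset.mul_sum]
    refine Finset.sum_congr rfl fun i _ => ?_
    rw [huL]
    ring
  have hρq : (0 : ℚ) ≤ ρ := by positivity
  have hdg : ∀ i, (0 : ℚ) ≤ (dg C dF n ρ y' k' i : ℚ) := by
    intro i
    rw [dg_eq H, huL]
    have h1 : (((dF i : ℤ) * y b i : ℤ) : ℚ) ≤ ((((dF i : ℤ) - n i - 1) * (m b : ℤ) : ℤ) : ℚ) := by
      exact_mod_cast hdeg b i
    push_cast at h1
    rw [← hmQ] at h1
    have h2 : (m b : ℚ) * (dF i * Q b i) ≤ m b * ((dF i : ℚ) - n i - 1) := by linarith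
    have h3 := mul_le_mul_of_nonneg_left (le_of_mul_le_mul_left h2 (hmq b)) hρq
    linarith
  obtain ⟨Ds, hDs, hDs0, hDso⟩ := hframe P hP
  refine ⟨sL e C dF x F ρ y' k' l', ⟨?_, fun P' hP' D' hD' => ?_⟩, Ds, hDs,
    mul_ne_zero (pow_ne_zero _ hDs0) (fL_ne H _ _ _ _), ?_⟩
  · intro A D
    unfold sL
    rw [om_lin, mul_pow]
    ring
  · by_cases hom : om e D' x = 0
    · left
      unfold sL
      rw [hom, zero_pow (by omega), zero_mul]
    right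
    refine ⟨1, by simp, one_ne_zero, ?_⟩
    obtain ⟨α', l2, v', hdat'⟩ := H.exists_dat P'
    unfold sL
    rw [P'.ord_mul (pow_ne_zero _ hom) (fL_ne H _ _ _ _), P'.ord_pow, Int.cast_add,
      ord_fL H hdat', hsumL]
    have h1 : (0 : ℚ) ≤ ∑ i, (dg C dF n ρ y' k' i : ℚ) * (P'.ord (x i (l' i)) - α' i) := by
      refine Finset.sum_nonneg fun i _ => mul_nonneg (hdg i) ?_
      have h6 : ((α' i : ℤ) : ℚ) ≤ (P'.ord (x i (l' i)) : ℚ) := by exact_mod_cast hdat'.h1 i (l' i)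
      linarith
    have h2 := mul_le_mul_of_nonneg_left (step2 P' hP' α' l2 v' hdat' b) hρq
    have h3 : (mo e x P' : ℚ) ≤ P'.ord (om e D' x) := by exact_mod_cast mo_le H hD' hom
    have h4 := mul_le_mul_of_nonneg_left h3 hρq
    have h5 : (AA e x P' α' v' : ℚ) = mo e x P' - ∑ i, (v' i : ℚ) -
        ∑ i, ((n i : ℚ) + 1) * α' i := by
      unfold AA
      push_cast
      ring
    rw [h5] at h2
    have h6 : (ρ : ℚ) * ((mo e x P' : ℚ) - ∑ i, (v' i : ℚ) - ∑ i, ((n i : ℚ) + 1) * α' i +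
        pr Q v' b) = ρ * mo e x P' - ρ * ∑ i, (v' i : ℚ) - ρ * ∑ i, ((n i : ℚ) + 1) * α' i +
          ρ * pr Q v' b := by ring
    rw [h6] at h2
    push_cast
    linarith
  · unfold sL
    rw [P.ord_mul (pow_ne_zero _ hDs0) (fL_ne H _ _ _ _), P.ord_pow, Int.cast_add,
      ord_fL H hdat, hsumL, hDso]
    have h1 : ∑ i, (dg C dF n ρ y' k' i : ℚ) * (P.ord (x i (l' i)) - α i) = 0 := by
      refine Finset.sum_eq_zero fun i _ => ?_
      rw [hdat.h2, sub_self, mul_zero]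
    rw [h1]
    obtain ⟨b1, hb1⟩ := step1 P hP α l' v hdat
    have h2 : (AA e x P α v : ℚ) + pr Q v b ≤ - δ P := by linarith [hb b1]
    have h3 := mul_le_mul_of_nonneg_left h2 hρq
    rw [mul_neg] at h3
    refine le_trans (le_of_eq ?_) h3
    unfold AA
    push_cast
    ring

end Pool.Agent.Q57.CF
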