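import Pool.Agent.Q57.CF.Core
import Pool.Agent.Q57.TC.FreT

/-!
Effective base point freeness of nef canonical divisors, for all canonical models of covers of the
projective space.
-/

set_option autoImplicit false
set_option linter.overlappingInstances false
set_option linter.unusedSectionVars false
set_option maxHeartbeats 1000000

open FF MvPolynomial Pool.Agent.W603.LV Pool.Agent.W619.PQ
open Pool.Agent.W619.TW Pool.Agent.W602.GT Pool.Agent.TH122.AB Pool.Agent.TH756.PN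
open Pool.Agent.Y169.CH Pool.Agent.W602.Cov Pool.Agent.W602.Cov.G
open Pool.Agent.Q57.TP Pool.Agent.TH152.AC Pool.Agent.Q57.GM Pool.Agent.Q57.FG
open Pool.Agent.Q57.GG Pool.Agent.Q57.TC

namespace Pool.Agent.Q57.CF

open Pool.Agent.Y169.TH (Arr Cv Dat Snc)

variable {d : ℕ} {Φ : Arr (d + 1)} {K : Type} [Field K] [Algebra ℂ K] {R : ℕ} (C : Cv Φ K R)
  {c : (Fin (d + 2) → ℕ) → ℚ} {δ δ0 : Place ℂ K → ℚ}

/-- the order of a section of a lattice point -/
theorem sG_eq {P : Place ℂ K} {α : ℤ} {v : Fin (d + 2) → ℕ} (h : Dat P Φ.F Φ.dF C.x α v) {m : ℕ}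
    {a : Fin (d + 2) → ℤ}
    (hE : (Φ.E : ℤ) * ∑ k, a k = (∑ k, (Φ.dF k : ℤ) - (d + 2)) * m)
    {D : Fin (d + 1) → Derivation ℂ K K} (hD : bw D C.x ≠ 0) :
    P.ord (sG C m a D) = m * P.ord (bw D C.x) - m * (((d : ℤ) + 2) * α) +
      ∑ k, (Φ.ee k : ℤ) * v k * a k - m * ∑ k, (v k : ℤ) := by
  rw [ord_sG C h hD hE]
  have h6 : ∑ k, ((Φ.dF k : ℤ) * α + v k) = α * ∑ k, (Φ.dF k : ℤ) + ∑ k, (v k : ℤ) := by
    rw [Finset.sum_add_distrib, Finset.mul_sum]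
    congr 1
    exact Finset.sum_congr rfl fun k _ => by ring
  rw [h6]
  ring

/-- the log discrepancy minus one -/
noncomputable def BB (P : Place ℂ K) (α : ℤ) (v : Fin (d + 2) → ℕ) : ℤ :=
  mow (fun D => bw D C.x) P - ∑ i, (v i : ℤ) - ((d : ℤ) + 2) * α

/-- **Effective base point freeness.** -/
theorem free_ga (hcf : Coef C c δ0)
    (hmul : ∀ v (k : ℕ), 1 ≤ k → Pool.Agent.Y169.TH.Adm C.M C.a v →
      1 - c (k • v) ≤ k * (1 - c v))
    (hfg : ∃ T : Finset (Fin (d + 2) → ℕ), (∀ s ∈ T, Pool.Agent.Y169.TH.Adm C.M C.a s) ∧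
      ∀ v, Pool.Agent.Y169.TH.Adm C.M C.a v → ∃ w : (Fin (d + 2) → ℕ) → ℚ, (∀ s, 0 ≤ w s) ∧
        (∀ k, ∑ s ∈ T, w s * s k ≤ v k) ∧ 1 - c v ≤ ∑ s ∈ T, w s * (1 - c s))
    (hκ : 0 ≤ ∑ k, (Φ.dF k : ℤ) - (d + 2))
    (hle : ∀ P, Divisorial (d + 1) P → δ P ≤ δ0 P)
    (hext : ∀ (m : ℕ) (a : Fin (d + 2) → ℤ), 1 ≤ m →
      (Φ.E : ℤ) * ∑ k, a k = (∑ k, (Φ.dF k : ℤ) - (d + 2)) * m →
      (∀ v, Pool.Agent.Y169.TH.Adm C.M C.a v → (m : ℚ) * (1 - c v) ≤
        ((∑ k, (Φ.ee k : ℤ) * v k * a k : ℤ) : ℚ)) →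
      ∀ P : Place ℂ K, Divisorial (d + 1) P → ∀ D : Fin (d + 1) → Derivation ℂ K K,
        (∀ c, DerReg P (D c)) → sG C m a D = 0 ∨ - (m * δ P) ≤ P.ord (sG C m a D))
    {ρ : ℕ} (hρ1 : 1 ≤ ρ) (hρ : ∀ P, Divisorial (d + 1) P → ∃ z : ℤ, (ρ : ℚ) * δ P = z)
    {t : ℕ} (ht1 : 1 ≤ t) (htd : ∀ k, Φ.dF k ∣ t) (hn : BNef (d + 1) δ) :
    ∀ P : Place ℂ K, Divisorial (d + 1) P → ∃ ω, BSec (d + 1) δ {1} (t * ρ) 0 ω ∧
      ∃ D, (∀ c, DerReg P (D c)) ∧ ω D ≠ 0 ∧ (P.ord (ω D) : ℚ) ≤ - (((t * ρ : ℕ) : ℚ) * δ P) := by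
  classical
  obtain ⟨T, hT⟩ := exists_bigM (p := 1) (c := fun _ => c) C.hM (by
    obtain ⟨T, hT1, hT2⟩ := hfg
    refine ⟨T, hT1, fun v hv => ?_⟩
    obtain ⟨w, h1, h2, h3⟩ := hT2 v hv
    exact ⟨w, h1, h2, fun _ => h3⟩)
  obtain ⟨N0, g, ω, hex, hord, D0, hωD0, hD0⟩ := geoAx (p := 1) (c := fun _ => c)
    (δ := fun _ => δ0) C (fun _ => hcf) (fun _ => hmul) hT hκ
  have hpl : ∀ (m : ℕ) (η : (Fin (d + 1) → Derivation ℂ K K) → K), IsPluri m η →
      ∀ D, η D = bw D C.x ^ m * η D0 := fun m η hη D => pluri_eq C hD0 hη D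
  choose hg y hωb hdeg hadm using hex
  obtain ⟨m, hm⟩ : ∃ m : Fin N0 → ℕ, m = fun b => ∑ i, g b i := ⟨_, rfl⟩
  have hmb : ∀ b, ∑ i, g b i = m b := fun b => by rw [hm]
  have hg0 : ∀ b, g b 0 = m b := fun b => by rw [← hmb, Fin.sum_univ_one]
  simp only [hmb] at hωb hdeg
  have hm1 : ∀ b, 1 ≤ m b := by
    intro b
    rw [← hg0]
    refine Nat.one_le_iff_ne_zero.2 fun h0 => (hg b) (Finsupp.ext fun i => ?_)
    rw [Subsingleton.elim i 0, h0]
    rfl
  have hmq : ∀ b, (0 : ℚ) < m b := fun b => by exact_mod_cast hm1 b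
  have hadm' : ∀ b v, Pool.Agent.Y169.TH.Adm C.M C.a v → (m b : ℚ) * (1 - c v) ≤
      ((∑ k, (Φ.ee k : ℤ) * v k * y b k : ℤ) : ℚ) := by
    intro b v hv
    have h1 := hadm b v hv
    rw [Fin.sum_univ_one, hg0] at h1
    exact h1
  obtain ⟨Q, hQ⟩ : ∃ Q : Fin N0 → Fin (d + 2) → ℚ,
    Q = fun b i => (Φ.ee i : ℚ) * y b i / m b := ⟨_, rfl⟩
  have hmQ : ∀ b i, (m b : ℚ) * Q b i = Φ.ee i * y b i := by
    intro b i
    rw [hQ]
    dsimp only
    rw [mul_div_cancel₀ _ (hmq b).ne']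
  have hmpr : ∀ b v, (m b : ℚ) * pr Q v b = ((∑ k, (Φ.ee k : ℤ) * v k * y b k : ℤ) : ℚ) := by
    intro b v
    unfold pr
    push_cast
    rw [Finset.mul_sum]
    refine Finset.sum_congr rfl fun i _ => ?_
    have h1 := hmQ b i
    have h2 : (m b : ℚ) * (v i * Q b i) = v i * (m b * Q b i) := by ring
    rw [h2, h1]
    ring
  have hκQ : ∀ b, ∑ k, (Φ.dF k : ℚ) * Q b k = ∑ k, (Φ.dF k : ℚ) - (d + 2) := by
    intro b
    have h1 : (m b : ℚ) * ∑ k, (Φ.dF k : ℚ) * Q b k = ((Φ.E : ℤ) * ∑ k, y b k : ℤ) := by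
      push_cast
      rw [Finset.mul_sum, Finset.mul_sum]
      refine Finset.sum_congr rfl fun k _ => ?_
      have h4 : (Φ.dF k : ℚ) * Φ.ee k = Φ.E := by exact_mod_cast Φ.d_ee k
      have h5 := hmQ b k
      have h6 : (m b : ℚ) * (Φ.dF k * Q b k) = Φ.dF k * (m b * Q b k) := by ring
      rw [h6, h5, ← h4]
      ring
    rw [hdeg] at h1
    push_cast at h1
    have h2 : (m b : ℚ) * ∑ k, (Φ.dF k : ℚ) * Q b k =
        m b * (∑ k, (Φ.dF k : ℚ) - (d + 2)) := by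
      rw [h1]
      ring
    exact mul_left_cancel₀ (hmq b).ne' h2
  have hzero : ∀ {m : ℕ} {η : (Fin (d + 1) → Derivation ℂ K K) → K}, IsPluri m η → 1 ≤ m →
      ∀ D, η D ≠ 0 → bw D C.x ≠ 0 ∧ η D0 ≠ 0 := by
    intro m η hη hm D hD
    rw [hpl m η hη D] at hD
    refine ⟨fun h0 => ?_, right_ne_zero_of_mul hD⟩
    rw [h0, zero_pow (by omega), zero_mul] at hD
    exact hD rfl
  obtain ⟨SS, ⟨s0, hs0, hs00⟩, hnf⟩ := hn
  -- the vector fields at a place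
  have hframe : ∀ P : Place ℂ K, Divisorial (d + 1) P →
      ∃ D : Fin (d + 1) → Derivation ℂ K K, (∀ c, DerReg P (D c)) ∧ bw D C.x ≠ 0 ∧
        P.ord (bw D C.x) = mow (fun D => bw D C.x) P := by
    intro P hP
    obtain ⟨j, hj, hjP⟩ := hnf 1 le_rfl
    obtain ⟨η, hη, D, hD, hηD, -⟩ := hjP P hP
    obtain ⟨α, v, hα, hdat⟩ := C.exists_dat P
    exact exists_mow (w := fun D => bw D C.x) (bw_low C hdat) hD (hzero hη.1 (by omega) D hηD).1
  -- the first inequality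
  have step1 : ∀ P : Place ℂ K, Divisorial (d + 1) P → ∀ α v, Dat P Φ.F Φ.dF C.x α v →
      ∃ b, (BB C P α v : ℚ) + pr Q v b ≤ - δ P := by
    intro P hP α v hdat
    by_contra hcon
    push Not at hcon
    obtain ⟨ε, hε0, hε⟩ : ∃ ε : ℚ, 0 < ε ∧ ∀ b, - δ P + ε ≤ BB C P α v + pr Q v b := by
      rcases isEmpty_or_nonempty (Fin N0) with hN | hN
      · exact ⟨1, one_pos, fun b => isEmptyElim b⟩
      · obtain ⟨b0, hb0⟩ := exists_min Q v
        exact ⟨BB C P α v + pr Q v b0 - (- δ P), by linarith [hcon b0],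
          fun b => by linarith [hb0 b]⟩
    obtain ⟨Ds, hDs, hDs0, hDso⟩ := hframe P hP
    obtain ⟨C1, hC1⟩ := hord P SS Ds
    obtain ⟨κ, hκ⟩ : ∃ κ, κ = - δ P + ε := ⟨_, rfl⟩
    rw [← hκ] at hε
    obtain ⟨M, hM⟩ := exists_nat_gt ((2 * C1 * (|κ| + 1) + |(P.ord s0 : ℚ)|) / ε)
    rw [div_lt_iff₀ hε0] at hM
    obtain ⟨j, hj, hjP⟩ := hnf (M + 1) (by omega)
    obtain ⟨η, hη, D, hD, hηD, hleη⟩ := hjP P hP
    have hjM : 1 ≤ j * (M + 1) := Nat.mul_pos hj (by omega)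
    obtain ⟨hDom, hη0⟩ := hzero hη.1 hjM D hηD
    have hηDs : η Ds ≠ 0 := by
      rw [hpl _ η hη.1 Ds]
      exact mul_ne_zero (pow_ne_zero _ hDs0) hη0
    have hle2 : P.ord (η Ds) ≤ P.ord (η D) := by
      have h1 := congrArg P.ord (hpl _ η hη.1 Ds)
      have h2 := congrArg P.ord (hpl _ η hη.1 D)
      rw [P.ord_mul (pow_ne_zero _ hDs0) hη0, P.ord_pow (bw Ds C.x)] at h1
      rw [P.ord_mul (pow_ne_zero _ hDom) hη0, P.ord_pow (bw D C.x)] at h2
      have h3 := mul_le_mul_of_nonneg_left (mow_le (w := fun D => bw D C.x) (bw_low C hdat) hD hDom)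
        (show (0 : ℤ) ≤ ((j * (M + 1) : ℕ) : ℤ) by positivity)
      rw [hDso] at h1
      linarith
    have hμ0 : (Finsupp.single (0 : Fin 1) (j * (M + 1))) ≠ 0 := by
      rw [Ne, Finsupp.single_eq_zero]
      omega
    have hsec : GG.ASec (d + 1) (fun _ => δ0) SS (Finsupp.single (0 : Fin 1) (j * (M + 1))) j
        η := by
      refine ⟨?_, fun P' hP' D' hD' => ?_⟩
      · rw [Fin.sum_univ_one, Finsupp.single_eq_same]
        exact hη.1
      · refine (hη.2 P' hP' D' hD').imp id ?_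
        rintro ⟨s, hs, hs0, hle'⟩
        refine ⟨s, hs, hs0, ?_⟩
        rw [Fin.sum_univ_one, Finsupp.single_eq_same]
        have h1 := mul_le_mul_of_nonneg_left (hle P' hP')
          (show (0 : ℚ) ≤ ((j * (M + 1) : ℕ) : ℚ) by positivity)
        linarith
    obtain ⟨-, e', he1, he2⟩ := (hC1 _ j η hμ0 (asec_iff.1 hsec)).resolve_left hηDs
    have h1 := he1 0
    rw [Finsupp.single_eq_same] at h1
    simp only [hg0] at h1
    have h2 : ∀ b, (e' b : ℚ) * (m b * κ) ≤ e' b * (P.ord (ω b Ds) : ℚ) := by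
      intro b
      refine mul_le_mul_of_nonneg_left ?_ (by positivity)
      refine (mul_le_mul_of_nonneg_left (hε b) (hmq b).le).trans ?_
      rw [hωb b, sG_eq C hdat (hdeg b) hDs0, hDso, mul_add, hmpr]
      unfold BB
      push_cast
      refine le_of_eq ?_
      ring
    have h3 := Finset.sum_le_sum fun b (_ : b ∈ Finset.univ) => h2 b
    have h4 : ∑ b, (e' b : ℚ) * (m b * κ) =
        ((∑ b, (e' b : ℤ) * m b : ℤ) : ℚ) * κ := by
      push_cast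
      rw [Finset.sum_mul]
      exact Finset.sum_congr rfl fun b _ => by ring
    have h5 : ((∑ b, (e' b : ℤ) * P.ord (ω b Ds) : ℤ) : ℚ) ≤
        ((P.ord (η Ds) + C1 * (j + 1) : ℤ) : ℚ) := by exact_mod_cast he2
    have h6 := hleη s0 hs0 hs00
    have h7 : (P.ord (η Ds) : ℚ) ≤ P.ord (η D) := by exact_mod_cast hle2
    have h8 : |((∑ b, (e' b : ℤ) * m b : ℤ) : ℚ) - (((j * (M + 1) : ℕ) : ℤ) : ℚ)| ≤
        C1 * (j + 1) := by exact_mod_cast h1
    have h11 : - (C1 * (j + 1) * |κ|) ≤ (((∑ b, (e' b : ℤ) * m b : ℤ) : ℚ) -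
        (((j * (M + 1) : ℕ) : ℤ) : ℚ)) * κ := by
      have h9 := neg_abs_le ((((∑ b, (e' b : ℤ) * m b : ℤ) : ℚ) -
        (((j * (M + 1) : ℕ) : ℤ) : ℚ)) * κ)
      rw [abs_mul] at h9
      have h10 := mul_le_mul_of_nonneg_right h8 (abs_nonneg κ)
      linarith
    rw [h4] at h3
    obtain ⟨sm, hsm⟩ : ∃ sm, sm = ((∑ b, (e' b : ℤ) * m b : ℤ) : ℚ) := ⟨_, rfl⟩
    rw [← hsm] at h3 h11
    push_cast at h3 h5 h6 h11
    have hjq : (1 : ℚ) ≤ j := by exact_mod_cast hj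
    have h12 := mul_le_mul_of_nonneg_left (le_abs_self (P.ord s0 : ℚ)) (by linarith : (0 : ℚ) ≤ j)
    have h13 : (C1 : ℚ) * (j + 1) * (|κ| + 1) ≤ j * (2 * C1 * (|κ| + 1)) := by
      have h14 : (0 : ℚ) ≤ C1 * (|κ| + 1) := by positivity
      have h15 : (C1 : ℚ) * (j + 1) * (|κ| + 1) = C1 * (|κ| + 1) * (j + 1) := by ring
      have h16 : (j : ℚ) * (2 * C1 * (|κ| + 1)) = C1 * (|κ| + 1) * (2 * j) := by ring
      rw [h15, h16]
      exact mul_le_mul_of_nonneg_left (by linarith) h14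
    have h17 : (j : ℚ) * (M * ε) ≤ j * (2 * C1 * (|κ| + 1) + |(P.ord s0 : ℚ)|) := by
      have h18 : (0 : ℚ) ≤ j * ε := mul_nonneg (by linarith) hε0.le
      have h20 : (j : ℚ) * (M + 1) * κ = - (j * (M + 1) * δ P) + j * (M + 1) * ε := by
        rw [hκ]
        ring
      linarith
    have h19 := le_of_mul_le_mul_left h17 (by linarith : (0 : ℚ) < j)
    linarith
  -- the second inequality
  have step2 : ∀ P : Place ℂ K, Divisorial (d + 1) P → ∀ α v, Dat P Φ.F Φ.dF C.x α v →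
      ∀ b, - δ P ≤ (BB C P α v : ℚ) + pr Q v b := by
    intro P hP α v hdat b
    obtain ⟨Ds, hDs, hDs0, hDso⟩ := hframe P hP
    have h2 := hext (m b) (y b) (hm1 b) (hdeg b) (hadm' b) P hP Ds hDs
    have h3 : sG C (m b) (y b) Ds ≠ 0 :=
      mul_ne_zero (pow_ne_zero _ hDs0) (prod_ne C _ _)
    have h4 := h2.resolve_left h3
    rw [sG_eq C hdat (hdeg b) hDs0, hDso] at h4
    have h5 : (m b : ℚ) * (- δ P) ≤ m b * ((BB C P α v : ℚ) + pr Q v b) := by
      rw [mul_neg]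
      refine h4.trans (le_of_eq ?_)
      rw [mul_add, hmpr]
      unfold BB
      push_cast
      ring
    exact le_of_mul_le_mul_left h5 (hmq b)
  -- the sections exist
  have hne : ∀ P : Place ℂ K, Divisorial (d + 1) P → Nonempty (Fin N0) := by
    intro P hP
    obtain ⟨α, v, -, hdat⟩ := C.exists_dat P
    obtain ⟨b, -⟩ := step1 P hP α v hdat
    exact ⟨b⟩
  -- integrality
  have step3 : ∀ w, Pool.Agent.Y169.TH.Adm C.M C.a w → ∀ b, IsMin Q w b →
      ∃ z : ℤ, (ρ : ℚ) * pr Q w b = z := by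
    intro w hw b hb
    obtain ⟨X, hX⟩ := C.exists_dir hw
    obtain ⟨P, α, v, r', hP, hdat, hadmv, hr', hXr⟩ := exists_place_a C X
    rw [hX] at hXr
    obtain ⟨b1, hb1⟩ := step1 P hP α v hdat
    have h1 := step2 P hP α v hdat b
    have hrq : (0 : ℚ) < r' := by exact_mod_cast hr'
    have h2 : pr Q v b ≤ pr Q v b1 := by
      have h3 := hb b1
      rw [hXr, pr_smul, pr_smul] at h3
      exact le_of_mul_le_mul_left h3 hrq
    have h3 : pr Q v b = - δ P - BB C P α v := by linarith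
    obtain ⟨z, hz⟩ := hρ P hP
    refine ⟨r' * (- z - ρ * BB C P α v), ?_⟩
    rw [hXr, pr_smul, h3]
    push_cast
    rw [← hz]
    ring
  have step4 : ∀ w, Pool.Agent.Y169.CH.Adm C.M C.a w → ∀ b, IsMin Q w b →
      ∃ z : ℤ, (((t * ρ : ℕ)) : ℚ) * pr Q w b = z := by
    intro w hw b hb
    choose q hq using htd
    obtain ⟨k0, hk0⟩ := Finite.exists_min fun k => q k * w k
    obtain ⟨w', hw'⟩ : ∃ w' : Fin (d + 2) → ℕ,
      ∀ k, (w' k : ℤ) = t * w k - q k0 * w k0 * Φ.dF k := by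
      refine ⟨fun k => t * w k - q k0 * w k0 * Φ.dF k, fun k => ?_⟩
      have h1 : q k0 * w k0 * Φ.dF k ≤ t * w k := by
        calc q k0 * w k0 * Φ.dF k ≤ q k * w k * Φ.dF k := Nat.mul_le_mul_right _ (hk0 k)
          _ = t * w k := by
            conv_rhs => rw [hq k]
            ring
      rw [Nat.cast_sub h1]
      push_cast
      ring
    have hw'q : ∀ k, (w' k : ℚ) = t * w k - q k0 * w k0 * Φ.dF k := fun k => by
      exact_mod_cast hw' k
    have hprw : ∀ b, pr Q w' b = t * pr Q w b -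
        q k0 * w k0 * (∑ k, (Φ.dF k : ℚ) - (d + 2)) := by
      intro b
      rw [← hκQ b]
      unfold pr
      rw [Finset.mul_sum, Finset.mul_sum, ← Finset.sum_sub_distrib]
      refine Finset.sum_congr rfl fun k _ => ?_
      rw [hw'q]
      ring
    have hint : ∃ z : ℤ, (ρ : ℚ) * pr Q w' b = z := by
      by_cases h0 : w' = 0
      · refine ⟨0, ?_⟩
        rw [h0]
        unfold pr
        simp
      · refine step3 w' ⟨h0, ⟨k0, ?_⟩, fun j => ?_⟩ b fun b' => ?_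
        · have h1 := hw' k0
          have h2 : (t : ℤ) * w k0 = q k0 * w k0 * Φ.dF k0 := by
            have h3 : (t : ℤ) = Φ.dF k0 * q k0 := by exact_mod_cast hq k0
            rw [h3]
            ring
          rw [h2, sub_self] at h1
          exact_mod_cast h1
        · have h1 : ((∑ i, C.a j i * w' i : ℕ) : ℤ) = t * ((∑ i, C.a j i * w i : ℕ) : ℤ) -
              q k0 * w k0 * ((∑ i, C.a j i * Φ.dF i : ℕ) : ℤ) := by
            push_cast
            rw [Finset.mul_sum, Finset.mul_sum, ← Finset.sum_sub_distrib]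
            refine Finset.sum_congr rfl fun i _ => ?_
            rw [hw']
            ring
          have h2 : (C.M j : ℤ) ∣ ((∑ i, C.a j i * w' i : ℕ) : ℤ) := by
            rw [h1]
            refine dvd_sub (Dvd.dvd.mul_left ?_ _) (Dvd.dvd.mul_left ?_ _)
            · exact_mod_cast hw.2 j
            · exact_mod_cast C.hdiv j
          exact_mod_cast h2
        · rw [hprw, hprw]
          have h1 := mul_le_mul_of_nonneg_left (hb b') (show (0 : ℚ) ≤ t by positivity)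
          linarith
    obtain ⟨z, hz⟩ := hint
    refine ⟨z + ρ * (q k0 * w k0 * (∑ k, (Φ.dF k : ℤ) - (d + 2))), ?_⟩
    push_cast
    rw [← hz, hprw]
    ring
  -- the section
  intro P hP
  have := hne P hP
  obtain ⟨α, v, -, hdat⟩ := C.exists_dat P
  have hv : v = 0 ∨ Pool.Agent.Y169.CH.Adm C.M C.a v := by
    by_cases h0 : v = 0
    · exact Or.inl h0
    · exact Or.inr ⟨h0, (C.adm hdat h0).2.2⟩
  obtain ⟨b, hb, hlat⟩ := vertex C.hM C.a (by omega) Q step4 hv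
  obtain ⟨y', k', hyk⟩ := Pool.Agent.Q57.GE.dual_lattice C.hM C.a
    (fun i => ((t * ρ : ℕ) : ℚ) * Q b i) hlat
  have huA : ∀ i, uA C y' k' i = ((t * ρ : ℕ) : ℚ) * Q b i := fun i => (hyk i).symm
  have hm1' : 1 ≤ t * ρ := Nat.mul_pos ht1 hρ1
  have hdegA : ∑ i, (Φ.dF i : ℚ) * uA C y' k' i =
      (∑ i, (Φ.dF i : ℚ) - (d + 2)) * ((t * ρ : ℕ) : ℚ) := by
    rw [← hκQ b, Finset.sum_mul]
    refine Finset.sum_congr rfl fun i _ => ?_
    rw [huA]
    ring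
  have hsumA : ∀ v : Fin (d + 2) → ℕ, ∑ i, (v i : ℚ) * uA C y' k' i =
      ((t * ρ : ℕ) : ℚ) * pr Q v b := by
    intro v
    unfold pr
    rw [Finset.mul_sum]
    refine Finset.sum_congr rfl fun i _ => ?_
    rw [huA]
    ring
  obtain ⟨σ, hσ⟩ : ∃ σ : ℕ, σ = t * ρ := ⟨_, rfl⟩
  rw [← hσ] at hdegA hsumA hm1' ⊢
  have hσq : (0 : ℚ) ≤ σ := by positivity
  obtain ⟨Ds, hDs, hDs0, hDso⟩ := hframe P hP
  refine ⟨sA C σ y' k', ⟨?_, fun P' hP' D' hD' => ?_⟩, Ds, hDs,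
    mul_ne_zero (pow_ne_zero _ hDs0) (fA_ne C _ _ _), ?_⟩
  · intro A D
    unfold sA
    rw [(bwa (d + 1) K).2.1 A D C.x, mul_pow]
    ring
  · by_cases hom : bw D' C.x = 0
    · left
      unfold sA
      rw [hom, zero_pow (by omega), zero_mul]
    right
    refine ⟨1, by simp, one_ne_zero, ?_⟩
    obtain ⟨α', v', -, hdat'⟩ := C.exists_dat P'
    rw [ord_sA C hdat' hdegA hom, hsumA]
    have h2 := mul_le_mul_of_nonneg_left (step2 P' hP' α' v' hdat' b) hσq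
    have h3 : (mow (fun D => bw D C.x) P' : ℚ) ≤ P'.ord (bw D' C.x) := by
      exact_mod_cast mow_le (w := fun D => bw D C.x) (bw_low C hdat') hD' hom
    have h4 := mul_le_mul_of_nonneg_left h3 hσq
    have h5 : (BB C P' α' v' : ℚ) = mow (fun D => bw D C.x) P' - ∑ i, (v' i : ℚ) -
        ((d : ℚ) + 2) * α' := by
      unfold BB
      push_cast
      ring
    rw [h5] at h2
    have h6 : (σ : ℚ) * ((mow (fun D => bw D C.x) P' : ℚ) - ∑ i, (v' i : ℚ) -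
        ((d : ℚ) + 2) * α' + pr Q v' b) = σ * mow (fun D => bw D C.x) P' -
          σ * ∑ i, (v' i : ℚ) - σ * (((d : ℚ) + 2) * α') + σ * pr Q v' b := by ring
    rw [h6] at h2
    push_cast
    linarith
  · rw [ord_sA C hdat hdegA hDs0, hsumA, hDso]
    obtain ⟨b1, hb1⟩ := step1 P hP α v hdat
    have h2 : (BB C P α v : ℚ) + pr Q v b ≤ - δ P := by linarith [hb b1]
    have h3 := mul_le_mul_of_nonneg_left h2 hσq
    rw [mul_neg] at h3
    refine le_trans (le_of_eq ?_) h3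
    unfold BB
    push_cast
    ring

end Pool.Agent.Q57.CF
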