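import Pool.Agent.Q57.CF.Main

/-!
Base point freeness of nef canonical divisors, for all canonical models of covers of products of
projective spaces: the main theorems.
-/

set_option autoImplicit false
set_option linter.overlappingInstances false
set_option linter.unusedSectionVars false
set_option maxHeartbeats 1000000

open FF MvPolynomial Pool.Agent.W603.LV Pool.Agent.W602.GT Pool.Agent.W602.Cov
open Pool.Agent.TH756.PR Pool.Agent.TH122.AB Pool.Agent.TH756.PN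
open Pool.Agent.Y169.CH Pool.Agent.Q57.TP Pool.Agent.Q57.TQ Pool.Agent.Q57.GM
open Pool.Agent.Q57.GH Pool.Agent.Q57.FG Pool.Agent.Q57.FH Pool.Agent.Q57.GG Pool.Agent.Q57.GE
open Pool.Agent.Q57.FT Pool.Agent.Q57.TC

namespace Pool.Agent.Q57.CF

variable {r N R : ℕ} {n : Fin r → ℕ} {K : Type} [Field K] [Algebra ℂ K]

/-- a generating condition -/
theorem gen_of_T {M : Fin R → ℕ} {a : Fin R → Fin r → ℕ} {T : Finset (Fin r → ℕ)}
    (hT : ∀ v, Adm M a v → ∃ s ∈ T, ∀ k, s k ≤ v k) (v : Fin r → ℕ) (hv : Adm M a v) :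
    ∃ w : (Fin r → ℕ) → ℚ, (∀ s, 0 ≤ w s) ∧ (∀ k, ∑ s ∈ T, w s * s k ≤ v k) ∧
      1 - (0 : ℚ) ≤ ∑ s ∈ T, w s * (1 - 0) := by
  classical
  obtain ⟨s, hs, hsv⟩ := hT v hv
  refine ⟨fun t => if t = s then 1 else 0, fun t => by dsimp only; split_ifs <;> norm_num,
    fun k => ?_, ?_⟩
  · rw [Finset.sum_eq_single s]
    · dsimp only
      rw [if_pos rfl, one_mul]
      exact_mod_cast hsv k
    · intro t _ ht
      dsimp only
      rw [if_neg ht, zero_mul]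
    · intro h
      exact absurd hs h
  · rw [Finset.sum_eq_single s]
    · dsimp only
      rw [if_pos rfl, one_mul]
    · intro t _ ht
      dsimp only
      rw [if_neg ht, zero_mul]
    · intro h
      exact absurd hs h

/-- powers of a section show that the divisor is nef -/
theorem nef_of_free {δ : Place ℂ K → ℚ} {ρ : ℕ} (hρ1 : 1 ≤ ρ)
    (h : ∀ P : Place ℂ K, Divisorial N P → ∃ ω, BSec N δ {1} ρ 0 ω ∧
      ∃ D, (∀ c, DerReg P (D c)) ∧ ω D ≠ 0 ∧ (P.ord (ω D) : ℚ) ≤ - (ρ * δ P)) :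
    BNef N δ := by
  refine ⟨{1}, ⟨1, by simp, one_ne_zero⟩, fun M hM => ⟨ρ, hρ1, fun P hP => ?_⟩⟩
  obtain ⟨ω, hω, D, hD, hωD, hle⟩ := h P hP
  refine ⟨fun D => ω D ^ M, ⟨fun A D => ?_, fun P' hP' D' hD' => ?_⟩, D, hD, pow_ne_zero _ hωD,
    fun s hs _ => ?_⟩
  · dsimp only
    rw [hω.1, mul_pow, ← pow_mul]
  · rcases hω.2 P' hP' D' hD' with h0 | ⟨s, hs, hs0, h1⟩
    · left
      dsimp only
      rw [h0, zero_pow (by omega)]
    · right
      refine ⟨s, hs, hs0, ?_⟩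
      rw [Finset.mem_singleton.1 hs, P'.ord_one] at h1 ⊢
      have h2 := mul_le_mul_of_nonneg_left h1 (show (0 : ℚ) ≤ M by positivity)
      dsimp only
      rw [P'.ord_pow]
      push_cast at h2 ⊢
      linarith
  · rw [Finset.mem_singleton.1 hs, P.ord_one]
    have h2 := mul_le_mul_of_nonneg_left hle (show (0 : ℚ) ≤ M by positivity)
    dsimp only
    rw [P.ord_pow]
    push_cast at h2 ⊢
    linarith

/-- **The main theorem**: canonical singularities. -/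
theorem top_can (hr : 1 ≤ r) (hn : ∀ i, 1 ≤ n i) (hN : N = ∑ i, n i)
    {F : ∀ i, MvPolynomial (Fin (n i + 1)) ℂ} {d : Fin r → ℕ} (hd : ∀ i, 1 ≤ d i)
    (hh : ∀ i, (F i).IsHomogeneous (d i)) (hs : ∀ i, SmF (F i))
    {x : ∀ i, Fin (n i + 1) → K} (hx0 : ∀ i, x i 0 ≠ 0)
    (hbas : IsTranscendenceBasis ℂ (aff x)) {m : Fin R → ℕ} (hm : ∀ j, 0 < m j)
    {a : Fin R → Fin r → ℕ} (hdiv : ∀ j i, m j ∣ a j i * d i) {z : Fin R → K}
    (hz : ∀ j, z j ^ m j = ∏ i, (aeval (x i) (F i) / x i 0 ^ d i) ^ a j i)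
    (hgen : IntermediateField.adjoin ℂ (Set.range (aff x) ∪ Set.range z) = ⊤)
    {k : Place ℂ K → ℚ} (hk0 : ∀ P, Divisorial N P → 0 ≤ k P)
    (hkx : ∀ (m : ℕ) (ω : (Fin N → Derivation ℂ K K) → K), IsPluri m ω →
      (∀ P : Place ℂ K, Divisorial N P → ∀ D : Fin N → Derivation ℂ K K,
        (∀ c, DerReg P (D c)) → ω D = 0 ∨ 0 ≤ P.ord (ω D)) →
      ∀ P : Place ℂ K, Divisorial N P → ∀ D : Fin N → Derivation ℂ K K,
        (∀ c, DerReg P (D c)) → ω D = 0 ∨ m * k P ≤ P.ord (ω D)) {ρ : ℕ} (hρ1 : 1 ≤ ρ)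
    (hρ : ∀ P, Divisorial N P → ∃ z : ℤ, (ρ : ℚ) * k P = z) :
    BNef N (fun P => - k P) ↔ ∀ P : Place ℂ K, Divisorial N P →
      ∃ ω, BSec N (fun P => - k P) {1} ρ 0 ω ∧
        ∃ D, (∀ c, DerReg P (D c)) ∧ ω D ≠ 0 ∧ (P.ord (ω D) : ℚ) ≤ - (ρ * - k P) := by
  classical
  refine ⟨fun hnf => ?_, nef_of_free hρ1⟩
  obtain ⟨N', e, Φ, C, x', F', rfl, hΦ, rfl, rfl, H, hvv, -⟩ :=
    setupT (N := N) hr hn hN hd hh hs hx0 hbas hm hdiv hz hgen
  obtain ⟨T, hT1, hT2⟩ := exists_T C.M C.a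
  have hcf : CoefH C (fun _ => 0) fun _ => 0 := ⟨rfl, fun _ => zero_le_one, fun _ _ _ => rfl⟩
  refine free_g H hr hd hΦ hvv hcf (fun v q hq _ => ?_) hT1 (gen_of_T hT2) (fun P hP => ?_)
    (fun m y l _ hdeg hadm P hP D hD => ?_) hρ1 (fun P hP => ?_) hnf
  · have h1 : (1 : ℚ) ≤ q := by exact_mod_cast hq
    simpa using h1
  · linarith [hk0 P hP]
  · have h1 := sH_sec H hcf hdeg hadm l
    have h2 := hkx m _ h1.1 (fun P' hP' D' hD' => by
      refine (h1.2 P' hP' D' hD').imp id ?_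
      rintro ⟨s, hs, -, hle⟩
      rw [Finset.mem_singleton.1 hs, P'.ord_one] at hle
      simp only [Int.cast_zero, mul_zero, sub_zero] at hle
      exact_mod_cast hle) P hP D hD
    refine h2.imp id fun h3 => ?_
    linarith
  · obtain ⟨z, hz⟩ := hρ P hP
    refine ⟨-z, ?_⟩
    push_cast
    rw [← hz]
    ring

/-- **The main theorem**: weak log canonical models of pairs. -/
theorem top_pair (hr : 1 ≤ r) (hn : ∀ i, 1 ≤ n i) (hN : N = ∑ i, n i)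
    {F : ∀ i, MvPolynomial (Fin (n i + 1)) ℂ} {d : Fin r → ℕ} (hd : ∀ i, 1 ≤ d i)
    (hh : ∀ i, (F i).IsHomogeneous (d i)) (hs : ∀ i, SmF (F i))
    {x : ∀ i, Fin (n i + 1) → K} (hx0 : ∀ i, x i 0 ≠ 0)
    (hbas : IsTranscendenceBasis ℂ (aff x)) {m : Fin R → ℕ} (hm : ∀ j, 0 < m j)
    {a : Fin R → Fin r → ℕ} (hdiv : ∀ j i, m j ∣ a j i * d i) {z : Fin R → K}
    (hz : ∀ j, z j ^ m j = ∏ i, (aeval (x i) (F i) / x i 0 ^ d i) ^ a j i)
    (hgen : IntermediateField.adjoin ℂ (Set.range (aff x) ∪ Set.range z) = ⊤)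
    {c : (Fin r → ℕ) → ℚ} (hc0 : c 0 = 0) (hc1 : ∀ v, c v ≤ 1)
    (hmul : ∀ v (k : ℕ), 1 ≤ k → Adm m a v → 1 - c (k • v) ≤ k * (1 - c v))
    (hfg : ∃ T : Finset (Fin r → ℕ), (∀ s ∈ T, Adm m a s) ∧ ∀ v, Adm m a v →
      ∃ w : (Fin r → ℕ) → ℚ, (∀ s, 0 ≤ w s) ∧ (∀ k, ∑ s ∈ T, w s * s k ≤ v k) ∧
        1 - c v ≤ ∑ s ∈ T, w s * (1 - c s)) {δ0 δ : Place ℂ K → ℚ}
    (hδ0 : ∀ P, δ0 P = (if mulQ F d x P = 0 then 1 else c (mulQ F d x P)) - lD F d x P)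
    (hle : ∀ P, Divisorial N P → δ P ≤ δ0 P)
    (hext : ∀ (m : ℕ) (ω : (Fin N → Derivation ℂ K K) → K),
      BSec N δ0 {1} m 0 ω → BSec N δ {1} m 0 ω) {ρ : ℕ} (hρ1 : 1 ≤ ρ)
    (hρ : ∀ P, Divisorial N P → ∃ z : ℤ, (ρ : ℚ) * δ P = z) :
    BNef N δ ↔ ∀ P : Place ℂ K, Divisorial N P →
      ∃ ω, BSec N δ {1} ρ 0 ω ∧
        ∃ D, (∀ c, DerReg P (D c)) ∧ ω D ≠ 0 ∧ (P.ord (ω D) : ℚ) ≤ - (ρ * δ P) := by
  classical
  refine ⟨fun hnf => ?_, nef_of_free hρ1⟩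
  obtain ⟨N', e, Φ, C, x', F', rfl, hΦ, rfl, rfl, H, hvv, hco⟩ :=
    setupT (N := N) hr hn hN hd hh hs hx0 hbas hm hdiv hz hgen
  obtain ⟨T, hT1, hT2⟩ := hfg
  have hcf : CoefH C c (fun P => c (mulQ F d x P)) := ⟨hc0, hc1, fun P v h => by rw [hvv P v h]⟩
  have ht : CoefTr e d x' F' c δ0 := hco c δ0 hδ0
  obtain ⟨D0, hD0'⟩ := exists_dual C.hZ
  have hD0 : ∀ i j, D0 i (C.Z j) = if i = j then 1 else 0 := by
    intro i j
    have h1 := congrFun (congrFun hD0' i) j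
    rw [Matrix.of_apply, Matrix.one_apply] at h1
    exact h1
  have hx0' : ∏ i, x' i 0 ^ (n i + 1) ≠ 0 :=
    Finset.prod_ne_zero_iff.2 fun i _ => pow_ne_zero _ (H.hx i 0)
  refine free_g H hr hd hΦ hvv hcf hmul hT1 hT2 (fun P hP => ?_)
    (fun m y l hm hdeg hadm P hP D hD => ?_) hρ1 hρ hnf
  · obtain ⟨SS, -, hnf'⟩ := hnf
    obtain ⟨j, hj, hjP⟩ := hnf' 1 le_rfl
    obtain ⟨η, hη, D, hD, hηD, -⟩ := hjP P hP
    have hom : om e D x' ≠ 0 := by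
      intro h0
      have h1 := pluri_eqH H hD0 hη.1 D
      rw [h0, zero_pow (by omega), zero_mul] at h1
      exact mul_ne_zero hηD (pow_ne_zero _ hx0') h1
    exact (hle P hP).trans (ht.le H hcf hD hom)
  · have h1 : MSec (N' + 1) (fun _ : Fin 1 => δ0) (Finsupp.single 0 m)
        (sH e d x' F' m y l) := by
      have h2 := sH_tr (p := 1) (c := fun _ => c) (δ := fun _ => δ0) H (fun _ => ht)
        (single_ne hm) (y := y) (fun t => by
          rw [Fin.sum_univ_one, Finsupp.single_eq_same]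
          exact hdeg t) (fun v hv => by
          rw [Fin.sum_univ_one, Finsupp.single_eq_same]
          exact hadm v hv) l
      rw [Fin.sum_univ_one, Finsupp.single_eq_same] at h2
      exact h2
    have h3 : BSec (N' + 1) δ0 {1} m 0 (sH e d x' F' m y l) := by
      refine ⟨?_, fun P' hP' D' hD' => (h1.2 P' hP' D' hD').imp id fun h4 =>
        ⟨1, by simp, one_ne_zero, ?_⟩⟩
      · have h4 := h1.1
        rw [Fin.sum_univ_one, Finsupp.single_eq_same] at h4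
        exact h4
      · rw [Fin.sum_univ_one, Finsupp.single_eq_same] at h4
        rw [P'.ord_one]
        push_cast
        linarith
    refine ((hext m _ h3).2 P hP D hD).imp id ?_
    rintro ⟨s, hs, -, h4⟩
    rw [Finset.mem_singleton.1 hs, P.ord_one] at h4
    push_cast at h4
    linarith

end Pool.Agent.Q57.CF
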