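import Pool.Agent.Q57.CF.MainA
import Pool.Agent.Q57.CF.Top

/-!
Effective base point freeness of nef canonical divisors, for all canonical models of covers of the
projective space, and for all weak log canonical models of pairs: the main theorems.
-/

set_option autoImplicit false
set_option linter.overlappingInstances false
set_option linter.unusedSectionVars false
set_option maxHeartbeats 1000000

open FF MvPolynomial Pool.Agent.W603.LV Pool.Agent.W619.PQ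
open Pool.Agent.W619.TW Pool.Agent.W602.GT Pool.Agent.TH122.AB Pool.Agent.TH756.PN
open Pool.Agent.Y169.CH Pool.Agent.W602.Cov Pool.Agent.W602.Cov.G
open Pool.Agent.Q57.TP Pool.Agent.TH152.AC Pool.Agent.Q57.GM Pool.Agent.Q57.FG
open Pool.Agent.Q57.GG Pool.Agent.Q57.TC

namespace Pool.Agent.Q57.CF

open Pool.Agent.Y169.TH (Arr Cv Dat Snc)

variable {d R : ℕ} {K : Type} [Field K] [Algebra ℂ K] {x : Fin (d + 2) → K}
  {F : Fin (d + 2) → MvPolynomial (Fin (d + 2)) ℂ}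
  {dF : Fin (d + 2) → ℕ} {z : Fin R → K} {M : Fin R → ℕ} {a : Fin R → Fin (d + 2) → ℕ}

/-- nothing is nef if the sum of the degrees is small -/
theorem kappa_gen (hx0 : x 0 ≠ 0)
    (hbas : IsTranscendenceBasis ℂ fun b : Fin (d + 1) => x b.succ / x 0) (hd : ∀ k, 0 < dF k)
    (hh : ∀ k, (F k).IsHomogeneous (dF k)) (hS : Snc F) (hM : ∀ j, 0 < M j)
    (hz : ∀ j, z j ^ M j = ∏ k, (aeval x (F k) / x 0 ^ dF k) ^ a j k)
    (hdiv : ∀ j, M j ∣ ∑ k, a j k * dF k)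
    (hgen : IntermediateField.adjoin ℂ
      (Set.range (fun b : Fin (d + 1) => x b.succ / x 0) ∪ Set.range z) = ⊤)
    {c : (Fin (d + 2) → ℕ) → ℚ} (hc0 : c 0 = 0) (hc1 : ∀ v, c v ≤ 1)
    (hmul : ∀ v (r : ℕ), 1 ≤ r → Pool.Agent.Y169.TH.Adm M a v → 1 - c (r • v) ≤ r * (1 - c v))
    (hfg : FG M a c) {δ : Place ℂ K → ℚ}
    (hle : ∀ P, Divisorial (d + 1) P → δ P ≤ c (mul F dF x P))
    (hn : BNef (d + 1) δ) : d + 2 ≤ ∑ k, dF k := by
  classical
  by_contra hκ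
  have hmain := (main_d hx0 hbas hd hh hS hM hz hdiv hgen hc0 hc1 hmul hfg
    (δ := fun P => c (mul F dF x P)) fun P => rfl).1
  obtain ⟨Φ, rfl, C, rfl, rfl, -, -⟩ := setA hx0 hbas hd hh hS hM hz hdiv hgen
  have hps := psef_of_nef (exists_divisorial C.u_bas C.bas_Y C.adj_le C.fin_Y) hn
  have h1 : BPsef (d + 1) fun P => c (mul F Φ.dF x P) := by
    obtain ⟨S, hS'⟩ := hps
    refine ⟨S, fun M' => ?_⟩
    obtain ⟨j, hj, η, hη0, hη⟩ := hS' M'
    refine ⟨j, hj, η, hη0, hη.1, fun P hP D hD => (hη.2 P hP D hD).imp id ?_⟩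
    rintro ⟨s, hs, hs0, hle'⟩
    refine ⟨s, hs, hs0, ?_⟩
    have h2 := mul_le_mul_of_nonneg_left (hle P hP)
      (show (0 : ℚ) ≤ ((j * M' : ℕ) : ℚ) by positivity)
    linarith
  obtain ⟨y, hy⟩ := hmain.1 h1
  rw [PiC] at hy
  obtain ⟨hy1, hy2⟩ := hy
  have h3 : ∀ k, 0 ≤ y k := by
    intro k
    have h4 := hy2 (uv C.M k) (adm_unit hM (by omega) k)
    have h5 : ∑ l, ((uv C.M k l : ℕ) : ℚ) * y l = Pool.Agent.Y169.TH.per C.M * y k := by
      rw [Finset.sum_eq_single k]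
      · unfold uv
        rw [if_pos rfl]
      · intro l _ hl
        unfold uv
        rw [if_neg hl, Nat.cast_zero, zero_mul]
      · intro h
        exact absurd (Finset.mem_univ _) h
    have h6 := hc1 (uv C.M k)
    have h7 : (0 : ℚ) < Pool.Agent.Y169.TH.per C.M := by
      exact_mod_cast Pool.Agent.Y169.TH.per_pos hM
    by_contra hcon
    push Not at hcon
    have h8 : Pool.Agent.Y169.TH.per C.M * y k < 0 := mul_neg_of_pos_of_neg h7 hcon
    rw [← h5] at h8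
    linarith
  have h4 : 0 ≤ ∑ k, (Φ.dF k : ℚ) * y k :=
    Finset.sum_nonneg fun k _ => mul_nonneg (by positivity) (h3 k)
  have h5 : ((∑ k, Φ.dF k : ℕ) : ℚ) < ((d + 2 : ℕ) : ℚ) := by
    exact_mod_cast not_le.1 hκ
  push_cast at h5
  rw [hy1] at h4
  push_cast at h4
  linarith

/-- finitely many admissible vectors -/
theorem exists_TA (M : Fin R → ℕ) (a : Fin R → Fin (d + 2) → ℕ) : FG M a fun _ => 0 := by
  classical
  have h1 : {v | Pool.Agent.Y169.TH.Adm M a v}.IsPWO := Set.isPWO_of_wellQuasiOrderedLE _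
  have h2 : {v | Minimal (· ∈ {v | Pool.Agent.Y169.TH.Adm M a v}) v}.Finite := by
    have h3 : IsAntichain (· ≤ ·) {v | Minimal (· ∈ {v | Pool.Agent.Y169.TH.Adm M a v}) v} :=
      setOfPred_minimal_antichain _
    exact h3.finite_of_partiallyWellOrderedOn (Set.isPWO_of_wellQuasiOrderedLE _)
  refine ⟨h2.toFinset, fun s hs => (h2.mem_toFinset.1 hs).1, fun v hv => ?_⟩
  obtain ⟨s, hs, hm⟩ := h1.exists_le_minimal hv
  have hs' := h2.mem_toFinset.2 hm
  refine ⟨fun t => if t = s then 1 else 0, fun t => by dsimp only; split_ifs <;> norm_num,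
    fun k => ?_, ?_⟩
  · rw [Finset.sum_eq_single s]
    · dsimp only
      rw [if_pos rfl, one_mul]
      exact_mod_cast hs k
    · intro t _ ht
      dsimp only
      rw [if_neg ht, zero_mul]
    · intro h
      exact absurd hs' h
  · rw [Finset.sum_eq_single s]
    · dsimp only
      rw [if_pos rfl, one_mul]
    · intro t _ ht
      dsimp only
      rw [if_neg ht, zero_mul]
    · intro h
      exact absurd hs' h

/-- **The main theorem**: canonical singularities. -/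
theorem top_canA (hx0 : x 0 ≠ 0)
    (hbas : IsTranscendenceBasis ℂ fun b : Fin (d + 1) => x b.succ / x 0) (hd : ∀ k, 0 < dF k)
    (hh : ∀ k, (F k).IsHomogeneous (dF k)) (hS : Snc F) (hM : ∀ j, 0 < M j)
    (hz : ∀ j, z j ^ M j = ∏ k, (aeval x (F k) / x 0 ^ dF k) ^ a j k)
    (hdiv : ∀ j, M j ∣ ∑ k, a j k * dF k)
    (hgen : IntermediateField.adjoin ℂ
      (Set.range (fun b : Fin (d + 1) => x b.succ / x 0) ∪ Set.range z) = ⊤)
    {k : Place ℂ K → ℚ} (hk0 : ∀ P, Divisorial (d + 1) P → 0 ≤ k P)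
    (hkx : ∀ (m : ℕ) (ω : (Fin (d + 1) → Derivation ℂ K K) → K), IsPluri m ω →
      (∀ P : Place ℂ K, Divisorial (d + 1) P → ∀ D : Fin (d + 1) → Derivation ℂ K K,
        (∀ c, DerReg P (D c)) → ω D = 0 ∨ 0 ≤ P.ord (ω D)) →
      ∀ P : Place ℂ K, Divisorial (d + 1) P → ∀ D : Fin (d + 1) → Derivation ℂ K K,
        (∀ c, DerReg P (D c)) → ω D = 0 ∨ m * k P ≤ P.ord (ω D)) {ρ : ℕ} (hρ1 : 1 ≤ ρ)
    (hρ : ∀ P, Divisorial (d + 1) P → ∃ z : ℤ, (ρ : ℚ) * k P = z) {t : ℕ}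
    (ht1 : 1 ≤ t) (htd : ∀ k, dF k ∣ t) :
    BNef (d + 1) (fun P => - k P) ↔ ∀ P : Place ℂ K, Divisorial (d + 1) P →
      ∃ ω, BSec (d + 1) (fun P => - k P) {1} (t * ρ) 0 ω ∧
        ∃ D, (∀ c, DerReg P (D c)) ∧ ω D ≠ 0 ∧
          (P.ord (ω D) : ℚ) ≤ - (((t * ρ : ℕ) : ℚ) * - k P) := by
  classical
  refine ⟨fun hnf => ?_, nef_of_free (Nat.mul_pos ht1 hρ1)⟩
  have hmul : ∀ v (r : ℕ), 1 ≤ r → Pool.Agent.Y169.TH.Adm M a v →
      1 - (fun _ : Fin (d + 2) → ℕ => (0 : ℚ)) (r • v) ≤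
        r * (1 - (fun _ : Fin (d + 2) → ℕ => (0 : ℚ)) v) := by
    intro v q hq _
    have h1 : (1 : ℚ) ≤ q := by exact_mod_cast hq
    simpa using h1
  have hκ := kappa_gen hx0 hbas hd hh hS hM hz hdiv hgen (c := fun _ => 0) rfl
    (fun _ => zero_le_one) hmul (exists_TA M a) (δ := fun P => - k P)
    (fun P hP => by
      have := hk0 P hP
      linarith) hnf
  obtain ⟨Φ, rfl, C, rfl, rfl, hvv, hco⟩ := setA hx0 hbas hd hh hS hM hz hdiv hgen
  have hcf : Coef C (fun _ => 0) fun _ => 0 := ⟨rfl, fun _ => zero_le_one, fun _ _ _ _ => rfl⟩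
  have hκ' : 0 ≤ ∑ k, (Φ.dF k : ℤ) - (d + 2) := by
    have h1 : ((d + 2 : ℕ) : ℤ) ≤ ((∑ k, Φ.dF k : ℕ) : ℤ) := by exact_mod_cast hκ
    push_cast at h1
    linarith
  refine free_ga C hcf hmul (exists_TA C.M C.a) hκ' (fun P hP => ?_)
    (fun m a _ hE hadm P hP D hD => ?_) hρ1 (fun P hP => ?_) ht1 htd hnf
  · linarith [hk0 P hP]
  · have h1 := sG_sec C hcf hE hadm
    have h2 := hkx m _ h1.1 (fun P' hP' D' hD' => by
      refine (h1.2 P' hP' D' hD').imp id ?_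
      rintro ⟨s, hs, -, hle⟩
      rw [Finset.mem_singleton.1 hs, P'.ord_one] at hle
      simp only [Int.cast_zero, mul_zero, sub_zero] at hle
      exact_mod_cast hle) P hP D hD
    refine h2.imp id fun h3 => ?_
    linarith
  · obtain ⟨z, hz⟩ := hρ P hP
    refine ⟨-z, ?_⟩
    push_cast
    rw [← hz]
    ring

/-- **The main theorem**: weak log canonical models of pairs. -/
theorem top_pairA (hx0 : x 0 ≠ 0)
    (hbas : IsTranscendenceBasis ℂ fun b : Fin (d + 1) => x b.succ / x 0) (hd : ∀ k, 0 < dF k)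
    (hh : ∀ k, (F k).IsHomogeneous (dF k)) (hS : Snc F) (hM : ∀ j, 0 < M j)
    (hz : ∀ j, z j ^ M j = ∏ k, (aeval x (F k) / x 0 ^ dF k) ^ a j k)
    (hdiv : ∀ j, M j ∣ ∑ k, a j k * dF k)
    (hgen : IntermediateField.adjoin ℂ
      (Set.range (fun b : Fin (d + 1) => x b.succ / x 0) ∪ Set.range z) = ⊤)
    {c : (Fin (d + 2) → ℕ) → ℚ} (hc0 : c 0 = 0) (hc1 : ∀ v, c v ≤ 1)
    (hmul : ∀ v (r : ℕ), 1 ≤ r → Pool.Agent.Y169.TH.Adm M a v → 1 - c (r • v) ≤ r * (1 - c v))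
    (hfg : FG M a c) {δ0 δ : Place ℂ K → ℚ}
    (hδ0 : ∀ P, δ0 P = (if mul F dF x P = 0 then 1 else c (mul F dF x P)) - lDA F dF x P)
    (hle : ∀ P, Divisorial (d + 1) P → δ P ≤ δ0 P)
    (hext : ∀ (m : ℕ) (ω : (Fin (d + 1) → Derivation ℂ K K) → K),
      BSec (d + 1) δ0 {1} m 0 ω → BSec (d + 1) δ {1} m 0 ω) {ρ : ℕ} (hρ1 : 1 ≤ ρ)
    (hρ : ∀ P, Divisorial (d + 1) P → ∃ z : ℤ, (ρ : ℚ) * δ P = z) {t : ℕ}
    (ht1 : 1 ≤ t) (htd : ∀ k, dF k ∣ t) :
    BNef (d + 1) δ ↔ ∀ P : Place ℂ K, Divisorial (d + 1) P →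
      ∃ ω, BSec (d + 1) δ {1} (t * ρ) 0 ω ∧
        ∃ D, (∀ c, DerReg P (D c)) ∧ ω D ≠ 0 ∧
          (P.ord (ω D) : ℚ) ≤ - (((t * ρ : ℕ) : ℚ) * δ P) := by
  classical
  refine ⟨fun hnf => ?_, nef_of_free (Nat.mul_pos ht1 hρ1)⟩
  obtain ⟨Φ, rfl, C, rfl, rfl, hvv, hco⟩ := setA hx0 hbas hd hh hS hM hz hdiv hgen
  have hcf : Coef C c (fun P => c (mul F Φ.dF x P)) :=
    ⟨hc0, hc1, fun P α v h => by rw [hvv P α v h]⟩
  have ht : CoefTa C c δ0 := hco c δ0 hδ0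
  obtain ⟨D0, hD0'⟩ := exists_dual C.u_bas
  have hD0 : ∀ i j, D0 i (C.u j) = if i = j then 1 else 0 := by
    intro i j
    have h1 := congrFun (congrFun hD0' i) j
    rw [Matrix.of_apply, Matrix.one_apply] at h1
    exact h1
  have hle' : ∀ P, Divisorial (d + 1) P → δ P ≤ c (mul F Φ.dF x P) := by
    intro P hP
    obtain ⟨SS, -, hnf'⟩ := hnf
    obtain ⟨j, hj, hjP⟩ := hnf' 1 le_rfl
    obtain ⟨η, hη, D, hD, hηD, -⟩ := hjP P hP
    have hbw : bw D C.x ≠ 0 := by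
      intro h0
      rw [pluri_eq C hD0 hη.1 D, h0, zero_pow (by omega), zero_mul] at hηD
      exact hηD rfl
    exact (hle P hP).trans (ht.le hcf hD hbw)
  have hκ := kappa_gen hx0 hbas hd hh hS hM hz hdiv hgen hc0 hc1 hmul hfg hle' hnf
  have hκ' : 0 ≤ ∑ k, (Φ.dF k : ℤ) - (d + 2) := by
    have h1 : ((d + 2 : ℕ) : ℤ) ≤ ((∑ k, Φ.dF k : ℕ) : ℤ) := by exact_mod_cast hκ
    push_cast at h1
    linarith
  refine free_ga C hcf hmul hfg hκ' hle' (fun m y hm hE hadm P hP D hD => ?_) hρ1 hρ ht1 htd hnf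
  have h1 : MSec (d + 1) (fun _ : Fin 1 => δ0) (Finsupp.single 0 m) (sG C m y) := by
    have h2 := sG_ta C (p := 1) (c := fun _ => c) (δ := fun _ => δ0) (fun _ => ht)
      (single_ne hm) (a := y) (by
        rw [Fin.sum_univ_one, Finsupp.single_eq_same]
        exact hE) (fun v hv => by
        rw [Fin.sum_univ_one, Finsupp.single_eq_same]
        exact hadm v hv)
    rw [Fin.sum_univ_one, Finsupp.single_eq_same] at h2
    exact h2
  have h3 : BSec (d + 1) δ0 {1} m 0 (sG C m y) := by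
    refine ⟨?_, fun P' hP' D' hD' => (h1.2 P' hP' D' hD').imp id fun h4 =>
      ⟨1, by simp, one_ne_zero, ?_⟩⟩
    · have h4 := h1.1
      rw [Fin.sum_univ_one, Finsupp.single_eq_same] at h4
      exact h4
    · rw [Fin.sum_univ_one, Finsupp.single_eq_same] at h4
      rw [P'.ord_one]
      push_cast
      linarith
  refine ((hext m _ h3).2 P hP D hD).imp id ?_
  rintro ⟨s, hs, -, h4⟩
  rw [Finset.mem_singleton.1 hs, P.ord_one] at h4
  push_cast at h4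
  linarith

end Pool.Agent.Q57.CF
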